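import Mathlib

/-!
# Pointwise function spaces into strong `d`-spaces need not be strong `d`-spaces

Let `Y` be the poset with two minimal elements `bot 0`, `bot 1`, an infinite antichain
`mid 0, mid 1, …` above both of them, and a chain `ch 0 < ch 1 < … < top` above all these, with
the Scott topology. It is a strong `d`-space. If `X` is any `T₀` space with at least two points,
`p ∈ O`, `q ∉ O` with `O` open, then in the space of continuous maps `X → Y` with the topology of
pointwise convergence the directed set of the maps with value `ch n` on `O` and `bot 0` off `O`,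
the map with value `ch 0` on `O` and `bot 1` off `O`, and the open set
`{f | ∃ k, f q ≥ mid k and f p ≥ ch (k + 1)}` violate the condition.
-/

namespace Pool.Agent.Results.MP_5f2357_gt.FunctionSpaceFails

open Set Topology

universe u

/-- The specialization order: `x ≤ y` iff `x` is in the closure of `{y}`. -/
def SLe {X : Type u} [TopologicalSpace X] (x y : X) : Prop := x ∈ closure {y}

/-- `↑x`, the set of all `y` with `x ≤ y` in the specialization order. -/
def Up {X : Type u} [TopologicalSpace X] (x : X) : Set X := {y | SLe x y}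

/-- `X` is a strong `d`-space: it is `T₀` and, for every nonempty set `D` directed for the
specialization order, every point `x` and every open `U`, if `(⋂ d ∈ D, ↑d) ∩ ↑x ⊆ U` then
`↑d ∩ ↑x ⊆ U` for some `d ∈ D`. -/
def StrongDSpace (X : Type u) [TopologicalSpace X] : Prop :=
  T0Space X ∧ ∀ (D : Set X) (x : X) (U : Set X), D.Nonempty → DirectedOn SLe D → IsOpen U →
    (⋂ d ∈ D, Up d) ∩ Up x ⊆ U → ∃ d ∈ D, Up d ∩ Up x ⊆ U

/-- `Top₀(X, Y)`: the set of the continuous maps `X → Y` with the topology of pointwise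
convergence, that is, the subspace topology inherited from the product space `Y ^ X`. -/
abbrev PointwiseMaps (X : Type u) (Y : Type) [TopologicalSpace X] [TopologicalSpace Y] :
    Type u :=
  {f : X → Y // Continuous f}

/-- The underlying set of the poset `Y`. -/
inductive Pt : Type
  | bot (b : Bool)
  | mid (k : ℕ)
  | ch (n : ℕ)
  | top
  deriving DecidableEq

/-- The order of `Y`. -/
def Le : Pt → Pt → Prop
  | .bot b, .bot c => b = c
  | .bot _, .mid _ => True
  | .bot _, .ch _ => True
  | .bot _, .top => True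
  | .mid _, .bot _ => False
  | .mid k, .mid l => k = l
  | .mid _, .ch _ => True
  | .mid _, .top => True
  | .ch _, .bot _ => False
  | .ch _, .mid _ => False
  | .ch m, .ch n => m ≤ n
  | .ch _, .top => True
  | .top, .bot _ => False
  | .top, .mid _ => False
  | .top, .ch _ => False
  | .top, .top => True

lemma le_refl' (x : Pt) : Le x x := by cases x <;> simp [Le]

lemma le_trans' {x y z : Pt} (h : Le x y) (h' : Le y z) : Le x z := by
  cases x <;> cases y <;> cases z <;> simp_all [Le]
  omega

lemma le_antisymm' {x y : Pt} (h : Le x y) (h' : Le y x) : x = y := by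
  cases x <;> cases y <;> simp_all [Le]
  omega

lemma le_top' (x : Pt) : Le x .top := by cases x <;> simp [Le]

/-- The Scott topology of `Y`. -/
instance : TopologicalSpace Pt where
  IsOpen U := (∀ x y, Le x y → x ∈ U → y ∈ U) ∧ (Pt.top ∈ U → ∃ n, Pt.ch n ∈ U)
  isOpen_univ := ⟨fun _ _ _ _ => mem_univ _, fun _ => ⟨0, mem_univ _⟩⟩
  isOpen_inter := by
    rintro U V ⟨hU, hU'⟩ ⟨hV, hV'⟩
    refine ⟨fun x y h hx => ⟨hU x y h hx.1, hV x y h hx.2⟩, fun h => ?_⟩
    obtain ⟨n, hn⟩ := hU' h.1
    obtain ⟨m, hm⟩ := hV' h.2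
    exact ⟨max n m, hU _ _ (by simp [Le]) hn, hV _ _ (by simp [Le]) hm⟩
  isOpen_sUnion := by
    intro S hS
    refine ⟨fun x y h hx => ?_, fun h => ?_⟩
    · obtain ⟨U, hU, hx⟩ := hx
      exact ⟨U, hU, (hS U hU).1 x y h hx⟩
    · obtain ⟨U, hU, hx⟩ := h
      obtain ⟨n, hn⟩ := (hS U hU).2 hx
      exact ⟨n, U, hU, hn⟩

lemma isOpen_iff {U : Set Pt} : IsOpen U ↔
    (∀ x y, Le x y → x ∈ U → y ∈ U) ∧ (Pt.top ∈ U → ∃ n, Pt.ch n ∈ U) := Iff.rfl

/-- The topology is compatible with the order. -/
lemma sLe_iff {x y : Pt} : SLe x y ↔ Le x y := by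
  constructor
  · intro h
    by_contra hxy
    have hop : IsOpen {z : Pt | ¬ Le z y} := by
      refine ⟨fun a b hab ha hb => ha (le_trans' hab hb), fun h => ?_⟩
      cases y with
      | bot b => exact ⟨0, by simp [Le]⟩
      | mid k => exact ⟨0, by simp [Le]⟩
      | ch n => exact ⟨n + 1, by simp [Le]⟩
      | top => exact absurd (le_refl' _) h
    obtain ⟨z, hz, hz'⟩ := mem_closure_iff.1 h _ hop hxy
    rw [mem_singleton_iff] at hz'
    subst hz'
    exact hz (le_refl' _)
  · intro h
    refine mem_closure_iff.2 fun U hU hx => ⟨y, hU.1 x y h hx, rfl⟩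

lemma t0 : T0Space Pt := by
  refine ⟨fun x y h => ?_⟩
  exact le_antisymm' (sLe_iff.1 h.specializes'.mem_closure) (sLe_iff.1 h.specializes.mem_closure)

/-- The rank of an element below `top`. -/
def rank : Pt → ℕ
  | .bot _ => 0
  | .mid _ => 1
  | .ch n => n + 2
  | .top => 0

lemma rank_le {x y : Pt} (hy : y ≠ .top) (h : Le x y) : rank x ≤ rank y := by
  cases x <;> cases y <;> simp_all [Le, rank]

lemma eq_of_rank {x y : Pt} (hy : y ≠ .top) (h : Le x y) (hr : rank y ≤ rank x) : x = y := by
  cases x <;> cases y <;> simp_all [Le, rank]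
  omega

lemma strong : StrongDSpace Pt := by
  refine ⟨t0, fun D x U hD hdir hU h => ?_⟩
  by_cases hmax : ∃ m ∈ D, ∀ d ∈ D, Le d m
  · obtain ⟨m, hm, hmD⟩ := hmax
    refine ⟨m, hm, fun y hy => h ⟨?_, hy.2⟩⟩
    simp only [mem_iInter]
    intro d hd
    exact sLe_iff.2 (le_trans' (hmD d hd) (sLe_iff.1 hy.1))
  · have htop : Pt.top ∈ U := h ⟨by simp only [mem_iInter]; exact fun d _ => sLe_iff.2 (le_top' d),
      sLe_iff.2 (le_top' x)⟩
    obtain ⟨n, hn⟩ := hU.2 htop
    have key : ∃ d ∈ D, Le (.ch n) d := by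
      by_contra hcon
      push Not at hcon
      have htopD : Pt.top ∉ D := fun h => hcon _ h (le_top' _)
      have hb : ∀ d ∈ D, rank d ≤ n + 2 := by
        intro d hd
        have h1 := hcon d hd
        cases d with
        | bot b => simp [rank]
        | mid k => simp [rank]
        | ch m => simp only [Le] at h1; simp only [rank]; omega
        | top => exact absurd hd htopD
      obtain ⟨d, hd, hdr⟩ : ∃ d ∈ D, ∀ e ∈ D, rank e ≤ rank d := by
        have hne : (rank '' D).Nonempty := hD.image _
        have hbdd : BddAbove (rank '' D) := ⟨n + 2, by rintro _ ⟨d, hd, rfl⟩; exact hb d hd⟩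
        obtain ⟨d, hd, hds⟩ := Nat.sSup_mem hne hbdd
        exact ⟨d, hd, fun e he => hds ▸ le_csSup hbdd ⟨e, he, rfl⟩⟩
      refine hmax ⟨d, hd, fun e he => ?_⟩
      obtain ⟨z, hz, hdz, hez⟩ := hdir d hd e he
      rw [sLe_iff] at hdz hez
      have hzt : z ≠ .top := fun h => htopD (h ▸ hz)
      rw [eq_of_rank hzt hdz (hdr z hz)]
      exact hez
    obtain ⟨d, hd, hnd⟩ := key
    exact ⟨d, hd, fun y hy => hU.1 _ _ (le_trans' hnd (sLe_iff.1 hy.1)) hn⟩

section Maps

variable {X : Type u} [TopologicalSpace X]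

open Classical in
/-- The map with the value `b` on `O` and the value `a` off `O`. -/
noncomputable def step (O : Set X) (a b : Pt) : X → Pt := fun x => if x ∈ O then b else a

lemma step_cont {O : Set X} (hO : IsOpen O) {a b : Pt} (hab : Le a b) :
    Continuous (step O a b) := by
  refine ⟨fun V hV => ?_⟩
  by_cases hb : b ∈ V
  · by_cases ha : a ∈ V
    · have : step O a b ⁻¹' V = univ := by
        ext x
        simp only [mem_preimage, step, mem_univ, iff_true]
        split_ifs <;> assumption
      rw [this]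
      exact isOpen_univ
    · have : step O a b ⁻¹' V = O := by
        ext x
        simp only [mem_preimage, step]
        split_ifs with h <;> simp [h, ha, hb]
      rw [this]
      exact hO
  · have ha : a ∉ V := fun h => hb (hV.1 _ _ hab h)
    have : step O a b ⁻¹' V = ∅ := by
      ext x
      simp only [mem_preimage, step, mem_empty_iff_false, iff_false]
      split_ifs <;> assumption
    rw [this]
    exact isOpen_empty

/-- The specialization order of the function space is the pointwise order. -/
lemma sLe_maps {f g : PointwiseMaps X Pt} : SLe f g ↔ ∀ x, Le (f.1 x) (g.1 x) := by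
  constructor
  · intro h x
    have hc : Continuous fun f : PointwiseMaps X Pt => f.1 x :=
      (continuous_apply x).comp continuous_subtype_val
    have h1 := image_closure_subset_closure_image hc (mem_image_of_mem _ h)
    rw [image_singleton] at h1
    exact sLe_iff.1 h1
  · intro h
    have h1 : f.1 ∈ closure {g.1} := by
      have h2 : ({g.1} : Set (X → Pt)) = univ.pi fun x => {g.1 x} := by
        rw [univ_pi_singleton]
      rw [h2, closure_pi_set]
      exact fun x _ => sLe_iff.2 (h x)
    have h2 := closure_subtype (x := f) (s := {g})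
    rw [image_singleton] at h2
    exact h2.2 h1

lemma sLe_step {O : Set X} {a b : Pt} {h : Continuous (step O a b)} {f : PointwiseMaps X Pt} :
    SLe (⟨step O a b, h⟩ : PointwiseMaps X Pt) f ↔
      (∀ x ∈ O, Le b (f.1 x)) ∧ ∀ x ∉ O, Le a (f.1 x) := by
  rw [sLe_maps]
  constructor
  · intro h1
    refine ⟨fun x hx => ?_, fun x hx => ?_⟩
    · have := h1 x
      simpa [step, hx] using this
    · have := h1 x
      simpa [step, hx] using this
  · rintro ⟨h1, h2⟩ x
    by_cases hx : x ∈ O
    · simpa [step, hx] using h1 x hx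
    · simpa [step, hx] using h2 x hx

lemma not_strong {O : Set X} (hO : IsOpen O) {p q : X} (hp : p ∈ O) (hq : q ∉ O) :
    ¬ StrongDSpace (PointwiseMaps X Pt) := by
  rintro ⟨-, hs⟩
  let d : ℕ → PointwiseMaps X Pt := fun n =>
    ⟨step O (.bot false) (.ch n), step_cont hO (by simp [Le])⟩
  let g : PointwiseMaps X Pt := ⟨step O (.bot true) (.ch 0), step_cont hO (by simp [Le])⟩
  let V : ℕ → Set Pt := fun k => {y | Le (.mid k) y}
  have hV : ∀ k, IsOpen (V k) := fun k => by
    refine ⟨fun x y hxy hx => le_trans' hx hxy, fun _ => ⟨0, ?_⟩⟩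
    simp [V, Le]
  let W : ℕ → Set Pt := fun k => {y | Le (.ch (k + 1)) y}
  have hW : ∀ k, IsOpen (W k) := fun k => by
    refine ⟨fun x y hxy hx => le_trans' hx hxy, fun _ => ⟨k + 1, ?_⟩⟩
    simp [W, Le]
  let U : Set (PointwiseMaps X Pt) := ⋃ k, {f | f.1 q ∈ V k ∧ f.1 p ∈ W k}
  have hev : ∀ x : X, Continuous fun f : PointwiseMaps X Pt => f.1 x := fun x =>
    (continuous_apply x).comp continuous_subtype_val
  have hU : IsOpen U := isOpen_iUnion fun k =>
    ((hV k).preimage (hev q)).inter ((hW k).preimage (hev p))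
  have hdir : DirectedOn SLe (range d) := by
    rintro _ ⟨m, rfl⟩ _ ⟨n, rfl⟩
    refine ⟨d (max m n), ⟨_, rfl⟩, ?_, ?_⟩
    · rw [sLe_maps]
      intro x
      by_cases hx : x ∈ O <;> simp [d, step, hx, Le]
    · rw [sLe_maps]
      intro x
      by_cases hx : x ∈ O <;> simp [d, step, hx, Le]
  have hsub : (⋂ e ∈ range d, Up e) ∩ Up g ⊆ U := by
    rintro f ⟨hf1, hf2⟩
    simp only [mem_iInter] at hf1
    have h1 : ∀ n, Le (.ch n) (f.1 p) := fun n => (sLe_step.1 (hf1 (d n) ⟨n, rfl⟩)).1 p hp
    have h2 : Le (.bot false) (f.1 q) := (sLe_step.1 (hf1 (d 0) ⟨0, rfl⟩)).2 q hq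
    have h3 : Le (.bot true) (f.1 q) := (sLe_step.1 hf2).2 q hq
    have h4 : ∃ k, Le (.mid k) (f.1 q) := by
      revert h2 h3
      cases f.1 q with
      | bot b => cases b <;> simp [Le]
      | mid k => exact fun _ _ => ⟨k, le_refl' _⟩
      | ch n => exact fun _ _ => ⟨0, by simp [Le]⟩
      | top => exact fun _ _ => ⟨0, by simp [Le]⟩
    obtain ⟨k, hk⟩ := h4
    exact mem_iUnion.2 ⟨k, hk, h1 (k + 1)⟩
  obtain ⟨_, ⟨n, rfl⟩, hn⟩ := hs (range d) g U (range_nonempty d) hdir hU hsub
  let f : PointwiseMaps X Pt := ⟨step O (.mid n) (.ch n), step_cont hO (by simp [Le])⟩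
  have hf1 : SLe (d n) f := by
    rw [sLe_maps]
    intro x
    by_cases hx : x ∈ O <;> simp [d, f, step, hx, Le]
  have hf2 : SLe g f := by
    rw [sLe_maps]
    intro x
    by_cases hx : x ∈ O <;> simp [g, f, step, hx, Le]
  obtain ⟨k, hk1, hk2⟩ := mem_iUnion.1 (hn ⟨hf1, hf2⟩)
  have hk1' : Le (.mid k) (step O (.mid n) (.ch n) q) := hk1
  have hk2' : Le (.ch (k + 1)) (step O (.mid n) (.ch n) p) := hk2
  simp only [step, hq, hp, if_true, if_false, Le] at hk1' hk2'
  omega

end Maps

/-- There is a strong `d`-space `Y` (a countable one) such that for **every** `T₀` space `X` with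
at least two points the space of the continuous maps `X → Y` with the topology of pointwise
convergence is not a strong `d`-space. -/
theorem result : ∃ (Y : Type) (_ : TopologicalSpace Y), Countable Y ∧ StrongDSpace Y ∧
    ∀ (X : Type u) [TopologicalSpace X] [T0Space X] [Nontrivial X],
      ¬ StrongDSpace (PointwiseMaps X Y) := by
  refine ⟨Pt, inferInstance, ?_, strong, fun X _ _ _ => ?_⟩
  · let e : Pt → Bool ⊕ ℕ ⊕ ℕ ⊕ Unit := fun y => match y with
      | .bot b => .inl b
      | .mid k => .inr (.inl k)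
      | .ch n => .inr (.inr (.inl n))
      | .top => .inr (.inr (.inr ()))
    have he : Function.Injective e := by
      intro x y h
      cases x <;> cases y <;> simp_all [e]
    exact he.countable
  · obtain ⟨x, y, hxy⟩ := exists_pair_ne X
    obtain ⟨O, hO, h⟩ := exists_isOpen_xor_mem hxy
    rcases h with ⟨h1, h2⟩ | ⟨h1, h2⟩
    · exact not_strong hO h1 h2
    · exact not_strong hO h1 h2

end Pool.Agent.Results.MP_5f2357_gt.FunctionSpaceFails
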